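import Pool.Agent.RKH.Sys
import Pool.Agent.RKH.Sum

/-!
Definitions for the clocked game on graphs (from the hand-ins OneColourPair and OnePersistentType).
-/

set_option autoImplicit false

namespace Pool.Agent.RKC

universe u

open Pool.Agent.RKH

section

variable {V C : Type u}

/-- If P holds then x y is an edge of colour c1, otherwise x y is a non-edge of colour c0
(in both cases x and y are different). -/
def HasType (G : SimpleGraph V) (f : G.edgeSet → C) (g : Gᶜ.edgeSet → C) (c1 c0 : C)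
    (P : Prop) (x y : V) : Prop :=
  (P → ∃ h : s(x, y) ∈ G.edgeSet, f ⟨s(x, y), h⟩ = c1) ∧
  (¬ P → ∃ h : s(x, y) ∈ Gᶜ.edgeSet, g ⟨s(x, y), h⟩ = c0)

/-- The vertex v is joined to the vertices of F in s by edges of colour c1 and
to the other vertices of F by non-edges of colour c0; in particular v is not in F. -/
def Realizes (G : SimpleGraph V) (f : G.edgeSet → C) (g : Gᶜ.edgeSet → C) (c1 c0 : C)
    (F s : Set V) (v : V) : Prop :=
  v ∉ F ∧ ∀ x ∈ F, HasType G f g c1 c0 (x ∈ s) v x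

/-- F is o-good: for every o' < o and every s some vertex v realizes s over F and
insert v F is o'-good. -/
def Good (G : SimpleGraph V) (f : G.edgeSet → C) (g : Gᶜ.edgeSet → C) (c1 c0 : C)
    (o : Ordinal.{u}) (F : Set V) : Prop :=
  ∀ (o' : Ordinal.{u}) (_ : o' < o) (s : Set V), ∃ v : V, Realizes G f g c1 c0 F s v ∧
    Good G f g c1 c0 o' (insert v F)
termination_by o
decreasing_by assumption

theorem good_iff (G : SimpleGraph V) (f : G.edgeSet → C) (g : Gᶜ.edgeSet → C) (c1 c0 : C)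
    (o : Ordinal.{u}) (F : Set V) : Good G f g c1 c0 o F ↔
      ∀ (o' : Ordinal.{u}) (_ : o' < o) (s : Set V), ∃ v : V, Realizes G f g c1 c0 F s v ∧
        Good G f g c1 c0 o' (insert v F) := by
  rw [Good]

theorem good_mono (G : SimpleGraph V) (f : G.edgeSet → C) (g : Gᶜ.edgeSet → C) (c1 c0 : C)
    {o o1 : Ordinal.{u}} (h1 : o1 ≤ o) {F : Set V} (h : Good G f g c1 c0 o F) :
    Good G f g c1 c0 o1 F := by
  rw [good_iff] at h ⊢
  intro o' ho' s
  exact h o' (lt_of_lt_of_le ho' h1) s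

theorem HasType.symm {G : SimpleGraph V} {f : G.edgeSet → C} {g : Gᶜ.edgeSet → C} {c1 c0 : C}
    {P : Prop} {x y : V} (h : HasType G f g c1 c0 P x y) : HasType G f g c1 c0 P y x := by
  have e : s(x, y) = s(y, x) := Sym2.eq_swap
  refine ⟨fun hP => ?_, fun hP => ?_⟩
  · obtain ⟨h1, h2⟩ := h.1 hP
    refine ⟨e ▸ h1, ?_⟩
    rw [← h2]
    congr 1
    exact Subtype.ext e.symm
  · obtain ⟨h1, h2⟩ := h.2 hP
    refine ⟨e ▸ h1, ?_⟩
    rw [← h2]
    congr 1
    exact Subtype.ext e.symm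

theorem HasType.ne {G : SimpleGraph V} {f : G.edgeSet → C} {g : Gᶜ.edgeSet → C} {c1 c0 : C}
    {P : Prop} {x y : V} (h : HasType G f g c1 c0 P x y) : x ≠ y := by
  by_cases hP : P
  · obtain ⟨h1, -⟩ := h.1 hP
    exact ((SimpleGraph.mem_edgeSet G).1 h1).ne
  · obtain ⟨h1, -⟩ := h.2 hP
    exact ((SimpleGraph.mem_edgeSet Gᶜ).1 h1).ne

theorem HasType.adj_iff {G : SimpleGraph V} {f : G.edgeSet → C} {g : Gᶜ.edgeSet → C} {c1 c0 : C}
    {P : Prop} {x y : V} (h : HasType G f g c1 c0 P x y) : G.Adj x y ↔ P := by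
  constructor
  · intro h1
    by_contra hP
    obtain ⟨h2, -⟩ := h.2 hP
    exact ((SimpleGraph.compl_adj G x y).1 ((SimpleGraph.mem_edgeSet Gᶜ).1 h2)).2 h1
  · intro hP
    obtain ⟨h2, -⟩ := h.1 hP
    exact (SimpleGraph.mem_edgeSet G).1 h2

theorem HasType.congr {G : SimpleGraph V} {f : G.edgeSet → C} {g : Gᶜ.edgeSet → C} {c1 c0 : C}
    {P Q : Prop} {x y : V} (h : HasType G f g c1 c0 P x y) (e : P ↔ Q) :
    HasType G f g c1 c0 Q x y :=
  ⟨fun hQ => h.1 (e.2 hQ), fun hQ => h.2 (fun hP => hQ (e.1 hP))⟩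

end

/-- The vertex set is divided into finite pieces (the fibres of b) indexed by a well-ordered set,
and every vertex is joined to all or to none of the vertices in later pieces. -/
def IsOneType {W : Type u} (H : SimpleGraph W) : Prop :=
  ∃ (B : Type u) (_ : LinearOrder B) (_ : WellFoundedLT B) (b : W → B),
    (∀ n, {v | b v = n}.Finite) ∧
    ∀ x y z, b x < b y → b x < b z → (H.Adj x y ↔ H.Adj x z)

end Pool.Agent.RKC
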