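import Pool.Agent.RKC.Defs

/-! One graph for the clock and for the graphs with one persistent type. -/

set_option autoImplicit false

namespace Pool.Agent.RKC

universe u

open Pool.Agent.RKH

/-- Transfer from the combinatorial core to the graph. -/
theorem good_of_lgood {La C A : Type u} [LinearOrder A] (lev : La → A)
    (f : (GU La C).edgeSet → C) (g : (GU La C)ᶜ.edgeSet → C)
    (kap : VU La C → VU La C → C)
    (hk1 : ∀ x y (h : s(x, y) ∈ (GU La C).edgeSet), kap x y = f ⟨s(x, y), h⟩)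
    (hk0 : ∀ x y (h : s(x, y) ∈ (GU La C)ᶜ.edgeSet), kap x y = g ⟨s(x, y), h⟩)
    (i : La → Set La → VU La C) (D : La → Set La → La → C)
    (hi : ∀ c' e' c e, lev c' < lev c → i c' e' ≠ i c e ∧
        ((GU La C).Adj (i c' e') (i c e) ↔ c ∈ e') ∧ kap (i c' e') (i c e) = D c' e' c)
    (cc : Bool → C) (o : Ordinal.{u}) :
    ∀ L : List (La × Set La), LGood D lev cc o (L.map Prod.fst) →
      Good (GU La C) f g (cc true) (cc false) o {y | ∃ p ∈ L, y = i p.1 p.2} := by
  classical
  induction o using WellFoundedLT.induction with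
  | _ o ih =>
    intro L hL
    rw [good_iff]
    rw [lgood_iff] at hL
    intro o' ho' s
    obtain ⟨c, e, hF, hG⟩ := hL o' ho' (L.map (fun p => decide (i p.1 p.2 ∈ s))) (by simp)
    unfold Fits at hF
    rw [List.forall₂_map_left_iff, List.forall₂_map_right_iff, List.forall₂_same] at hF
    refine ⟨i c e, ⟨?_, ?_⟩, ?_⟩
    · rintro ⟨p, hp, hpe⟩
      exact (hi c e p.1 p.2 (hF p hp).1).1 hpe
    · rintro x ⟨p, hp, rfl⟩
      obtain ⟨h1, h2, h3⟩ := hF p hp
      obtain ⟨h4, h5, h6⟩ := hi c e p.1 p.2 h1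
      constructor
      · intro hs
        have hd : decide (i p.1 p.2 ∈ s) = true := decide_eq_true hs
        have hadj : s(i c e, i p.1 p.2) ∈ (GU La C).edgeSet :=
          (SimpleGraph.mem_edgeSet _).2 (h5.2 (h2.2 hd))
        refine ⟨hadj, ?_⟩
        rw [← hk1, h6, h3, hd]
      · intro hs
        have hd : decide (i p.1 p.2 ∈ s) = false := decide_eq_false hs
        have hadj : s(i c e, i p.1 p.2) ∈ (GU La C)ᶜ.edgeSet := by
          rw [SimpleGraph.mem_edgeSet, SimpleGraph.compl_adj]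
          refine ⟨h4, fun h7 => ?_⟩
          have h8 := h2.1 (h5.1 h7)
          rw [hd] at h8
          exact Bool.false_ne_true h8
        refine ⟨hadj, ?_⟩
        rw [← hk0, h6, h3, hd]
    · have h7 := ih o' ho' ((c, e) :: L) hG
      have h8 : {y | ∃ p ∈ (c, e) :: L, y = i p.1 p.2} =
          insert (i c e) {y | ∃ p ∈ L, y = i p.1 p.2} := by
        ext y
        simp
      rw [h8] at h7
      exact h7

/-- One graph and one pair of colours for the clock `o` and for all graphs with one persistent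
type and at most `#K` vertices. -/
theorem both (C K : Type u) (o : Ordinal.{u}) :
    ∃ (V : Type u) (G : SimpleGraph V), ∀ (f : G.edgeSet → C) (g : Gᶜ.edgeSet → C),
      ∃ c1 c0 : C, Good G f g c1 c0 o ∅ ∧
        ∀ (W : Type u) (H : SimpleGraph W), Nonempty (W ↪ K) →
        IsOneType H → ∃ p : H ↪g G,
          ∀ x y : W, x ≠ y → HasType G f g c1 c0 (H.Adj x y) (p x) (p y) := by
  classical
  obtain ⟨L, _, _, hcore⟩ := sum_core C K o
  refine ⟨VU L C, GU L C, ?_⟩
  intro f g
  have hedge : s(UV.leaf, UV.node Set.univ (fun _ => UV.leaf)) ∈ (GU L C).edgeSet := by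
    rw [SimpleGraph.mem_edgeSet]
    exact Or.inl ⟨Idx.nil, Set.mem_univ _, rfl⟩
  let c : C := f ⟨_, hedge⟩
  let kap : VU L C → VU L C → C := fun x y =>
    if h : s(x, y) ∈ (GU L C).edgeSet then f ⟨s(x, y), h⟩
    else if h : s(x, y) ∈ (GU L C)ᶜ.edgeSet then g ⟨s(x, y), h⟩ else c
  have hk1 : ∀ x y (h : s(x, y) ∈ (GU L C).edgeSet), kap x y = f ⟨s(x, y), h⟩ := by
    intro x y h
    simp only [kap, dif_pos h]
  have hk0 : ∀ x y (h : s(x, y) ∈ (GU L C)ᶜ.edgeSet), kap x y = g ⟨s(x, y), h⟩ := by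
    intro x y h
    have h' : ¬ s(x, y) ∈ (GU L C).edgeSet := by
      intro h1
      rw [SimpleGraph.mem_edgeSet] at h h1
      exact ((SimpleGraph.compl_adj _ x y).1 h).2 h1
    simp only [kap, dif_neg h', dif_pos h]
  obtain ⟨i, D, hi⟩ := exists_system (id : L → L) kap
  obtain ⟨cc, hcg, hcc⟩ := hcore D
  refine ⟨cc true, cc false, ?_, ?_⟩
  · have h1 := good_of_lgood (id : L → L) f g kap hk1 hk0 i D hi cc _ [] hcg
    have h2 : {y : VU L C | ∃ p ∈ ([] : List (L × Set L)), y = i p.1 p.2} = ∅ := by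
      ext y
      simp
    rw [h2] at h1
    exact h1
  intro W H hK hH
  obtain ⟨a, e, ha, hae⟩ := hcc W H hK hH
  -- relations between the vertices
  have hlt : ∀ x y, a x < a y →
      HasType (GU L C) f g (cc true) (cc false) (H.Adj x y) (i (a x) (e x)) (i (a y) (e y)) := by
    intro x y hxy
    obtain ⟨h1, h2⟩ := hae x y hxy
    obtain ⟨h3, h4, h5⟩ := hi (a x) (e x) (a y) (e y) hxy
    constructor
    · intro hP
      have hadj : s(i (a x) (e x), i (a y) (e y)) ∈ (GU L C).edgeSet :=
        (SimpleGraph.mem_edgeSet _).2 (h4.2 (h1.2 hP))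
      refine ⟨hadj, ?_⟩
      rw [← hk1, h5]
      exact h2 true (by simp [hP])
    · intro hP
      have hadj : s(i (a x) (e x), i (a y) (e y)) ∈ (GU L C)ᶜ.edgeSet := by
        rw [SimpleGraph.mem_edgeSet, SimpleGraph.compl_adj]
        exact ⟨h3, fun h7 => hP (h1.1 (h4.1 h7))⟩
      refine ⟨hadj, ?_⟩
      rw [← hk0, h5]
      exact h2 false (by simp [hP])
  have hall : ∀ x y, x ≠ y →
      HasType (GU L C) f g (cc true) (cc false) (H.Adj x y) (i (a x) (e x)) (i (a y) (e y)) := by
    intro x y hxy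
    rcases lt_or_gt_of_ne (fun h => hxy (ha h)) with h | h
    · exact hlt x y h
    · exact ((hlt y x h).symm).congr (SimpleGraph.adj_comm H _ _)
  have hinj : Function.Injective (fun x => i (a x) (e x)) := by
    intro x y hxy
    by_contra hne
    exact (hall x y hne).ne hxy
  refine ⟨⟨⟨fun x => i (a x) (e x), hinj⟩, ?_⟩, hall⟩
  intro x y
  by_cases hxy : x = y
  · subst hxy
    simp
  · exact (hall x y hxy).adj_iff

end Pool.Agent.RKC
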