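import Pool.Agent.RKC.Defs
import Pool.Agent.RK.Press

/-! The clock `|V|⁺` is the same as no clock: a homogeneous copy of the random graph. -/

set_option autoImplicit false

namespace Pool.Agent.RKC

universe u

open Cardinal Order

variable {V C : Type u} {G : SimpleGraph V} {f : G.edgeSet → C} {g : Gᶜ.edgeSet → C} {c1 c0 : C}

/-- The defining property of the countable random graph. -/
def IsRandom (U : SimpleGraph ℕ) : Prop :=
  ∀ A B : Finset ℕ, Disjoint A B →
    {v | v ∉ A ∪ B ∧ (∀ a ∈ A, U.Adj v a) ∧ ∀ b ∈ B, ¬ U.Adj v b}.Infinite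

/-- If the clock is at least `|V|⁺`, the clock can be kept. -/
theorem good_step (hV : ℵ₀ ≤ #V) (F s : Set V)
    (h : Good G f g c1 c0 (succ #V).ord F) :
    ∃ v, Realizes G f g c1 c0 F s v ∧ Good G f g c1 c0 (succ #V).ord (insert v F) := by
  by_contra hcon
  push Not at hcon
  have hlim : ∀ o < (succ #V).ord, Order.succ o < (succ #V).ord := fun o ho =>
    (isSuccLimit_ord (hV.trans (le_succ _))).succ_lt ho
  have hbad : ∀ v : V, ∃ o < (succ #V).ord, Realizes G f g c1 c0 F s v →
      ¬ Good G f g c1 c0 o (insert v F) := by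
    intro v
    by_cases hv : Realizes G f g c1 c0 F s v
    · have h1 := hcon v hv
      rw [good_iff] at h1
      push Not at h1
      obtain ⟨o', ho', t, h2⟩ := h1
      refine ⟨Order.succ o', hlim o' ho', fun _ h3 => ?_⟩
      rw [good_iff] at h3
      obtain ⟨w, hw1, hw2⟩ := h3 o' (lt_succ o') t
      exact h2 w hw1 hw2
    · refine ⟨0, ?_, fun h' => absurd h' hv⟩
      rw [lt_ord, Ordinal.card_zero]
      exact aleph0_pos.trans_le (hV.trans (le_succ _))
  choose o ho hbad using hbad
  have hsup : iSup o < (succ #V).ord := by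
    refine Ordinal.iSup_lt_of_lt_cof ?_ ho
    rw [(isRegular_succ hV).cof_ord]
    exact lt_succ _
  rw [good_iff] at h
  obtain ⟨v, hv1, hv2⟩ := h (iSup o) hsup s
  exact hbad v hv1 (good_mono G f g c1 c0 (Ordinal.le_iSup o v) hv2)

/-- With clock `|V|⁺` every graph on `ℕ` has a homogeneous copy. -/
theorem exists_copy (hV : ℵ₀ ≤ #V) (h : Good G f g c1 c0 (succ #V).ord ∅)
    (H : SimpleGraph ℕ) : ∃ p : H ↪g G, ∀ a b, a ≠ b →
      HasType G f g c1 c0 (H.Adj a b) (p a) (p b) := by
  classical
  let rg : (n : ℕ) → ((m : ℕ) → m < n → V) → Set V := fun n prev => {x | ∃ m h, x = prev m h}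
  obtain ⟨p, hp⟩ := Pool.Agent.RK.exists_rec (R := ℕ) (β := fun _ => V)
    (fun n prev v => Good G f g c1 c0 (succ #V).ord (rg n prev) →
      Realizes G f g c1 c0 (rg n prev) {x | ∃ m h, x = prev m h ∧ H.Adj n m} v ∧
        Good G f g c1 c0 (succ #V).ord (insert v (rg n prev))) (by
      intro n prev
      by_cases h1 : Good G f g c1 c0 (succ #V).ord (rg n prev)
      · obtain ⟨v, hv⟩ := good_step hV (rg n prev) {x | ∃ m h, x = prev m h ∧ H.Adj n m} h1
        exact ⟨v, fun _ => hv⟩
      · obtain ⟨v, -⟩ := good_step hV ∅ ∅ h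
        exact ⟨v, fun h' => absurd h' h1⟩)
  have hgood : ∀ n, Good G f g c1 c0 (succ #V).ord {x | ∃ m, m < n ∧ x = p m} := by
    intro n
    induction n with
    | zero =>
      have : {x | ∃ m, m < 0 ∧ x = p m} = (∅ : Set V) := by
        ext x
        simp
      rw [this]
      exact h
    | succ n ih =>
      have h1 : rg n (fun m _ => p m) = {x | ∃ m, m < n ∧ x = p m} := by
        ext x
        simp [rg]
      have h2 := (hp n (by rw [h1]; exact ih)).2
      have h3 : insert (p n) (rg n (fun m _ => p m)) = {x | ∃ m, m < n + 1 ∧ x = p m} := by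
        rw [h1]
        ext x
        constructor
        · rintro (rfl | ⟨m, hm, rfl⟩)
          · exact ⟨n, Nat.lt_succ_self n, rfl⟩
          · exact ⟨m, hm.trans (Nat.lt_succ_self n), rfl⟩
        · rintro ⟨m, hm, rfl⟩
          rcases Nat.lt_succ_iff_lt_or_eq.1 hm with h4 | rfl
          · exact Or.inr ⟨m, h4, rfl⟩
          · exact Or.inl rfl
      rw [← h3]
      exact h2
  have hreal : ∀ n m, m < n → HasType G f g c1 c0
      (∃ m', m' < n ∧ p m = p m' ∧ H.Adj n m') (p n) (p m) := by
    intro n m hm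
    have h1 : rg n (fun m _ => p m) = {x | ∃ m, m < n ∧ x = p m} := by
      ext x
      simp [rg]
    have h2 := (hp n (by rw [h1]; exact hgood n)).1.2 (p m) ⟨m, hm, rfl⟩
    refine h2.congr ?_
    constructor
    · rintro ⟨m', hm', h3, h4⟩
      exact ⟨m', hm', h3, h4⟩
    · rintro ⟨m', hm', h3, h4⟩
      exact ⟨m', hm', h3, h4⟩
  have hinj : ∀ n m, m < n → p n ≠ p m := fun n m hm => (hreal n m hm).ne
  have hinj' : Function.Injective p := by
    intro n m hnm
    rcases lt_trichotomy n m with h1 | h1 | h1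
    · exact absurd hnm.symm (hinj m n h1)
    · exact h1
    · exact absurd hnm (hinj n m h1)
  have hlt : ∀ n m, m < n → HasType G f g c1 c0 (H.Adj n m) (p n) (p m) := by
    intro n m hm
    refine (hreal n m hm).congr ?_
    constructor
    · rintro ⟨m', -, h3, h4⟩
      rw [hinj' h3]
      exact h4
    · intro h4
      exact ⟨m, hm, rfl, h4⟩
  have hall : ∀ a b, a ≠ b → HasType G f g c1 c0 (H.Adj a b) (p a) (p b) := by
    intro a b hab
    rcases lt_or_gt_of_ne hab with h1 | h1
    · exact ((hlt b a h1).symm).congr (SimpleGraph.adj_comm H _ _)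
    · exact hlt a b h1
  refine ⟨⟨⟨p, hinj'⟩, ?_⟩, hall⟩
  intro a b
  by_cases hab : a = b
  · subst hab
    simp
  · exact (hall a b hab).adj_iff

/-- A homogeneous copy of the random graph wins against every clock. -/
theorem good_of_copy (U : SimpleGraph ℕ) (hU : IsRandom U) (p : U ↪g G)
    (hp : ∀ a b, a ≠ b → HasType G f g c1 c0 (U.Adj a b) (p a) (p b)) (o : Ordinal.{u}) :
    ∀ A : Finset ℕ, Good G f g c1 c0 o (p '' (A : Set ℕ)) := by
  classical
  induction o using WellFoundedLT.induction with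
  | _ o ih =>
    intro A
    rw [good_iff]
    intro o' ho' s
    obtain ⟨v, hv, hv1, hv2⟩ := (hU (A.filter fun a => p a ∈ s) (A.filter fun a => p a ∉ s)
      (Finset.disjoint_filter_filter_not _ _ _)).nonempty
    have hvA : v ∉ A := by
      intro h
      refine hv ?_
      rw [Finset.mem_union, Finset.mem_filter, Finset.mem_filter]
      by_cases hs : p v ∈ s
      · exact Or.inl ⟨h, hs⟩
      · exact Or.inr ⟨h, hs⟩
    refine ⟨p v, ⟨?_, ?_⟩, ?_⟩
    · rintro ⟨a, ha, hav⟩
      rw [p.injective hav] at ha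
      exact hvA ha
    · rintro _ ⟨a, ha, rfl⟩
      have hne : v ≠ a := by
        rintro rfl
        exact hvA ha
      refine (hp v a hne).congr ?_
      constructor
      · intro hadj
        by_contra hs
        exact hv2 a (Finset.mem_filter.2 ⟨ha, hs⟩) hadj
      · intro hs
        exact hv1 a (Finset.mem_filter.2 ⟨ha, hs⟩)
    · have h1 := ih o' ho' (insert v A)
      rw [Finset.coe_insert, Set.image_insert_eq] at h1
      exact h1

/-- The clock `|V|⁺` is equivalent to a homogeneous copy of the random graph. -/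
theorem good_succ_iff (hV : ℵ₀ ≤ #V) (U : SimpleGraph ℕ) (hU : IsRandom U) :
    Good G f g c1 c0 (succ #V).ord ∅ ↔
      ∃ p : U ↪g G, ∀ a b, a ≠ b → HasType G f g c1 c0 (U.Adj a b) (p a) (p b) := by
  constructor
  · intro h
    exact exists_copy hV h U
  · rintro ⟨p, hp⟩
    have h := good_of_copy U hU p hp (succ #V).ord ∅
    rw [Finset.coe_empty, Set.image_empty] at h
    exact h

end Pool.Agent.RKC
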