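import Pool.Agent.RKC.Defs

/-! Transfer from an induced subgraph to the graph, and disjoint unions. -/

set_option autoImplicit false

namespace Pool.Agent.RKC

universe u

variable {V V' C : Type u} {G : SimpleGraph V} {G' : SimpleGraph V'}

/-- Restriction of the colourings to an induced subgraph. -/
theorem exists_restrict (i : G' ↪g G) (f : G.edgeSet → C) (g : Gᶜ.edgeSet → C) :
    ∃ (f' : G'.edgeSet → C) (g' : G'ᶜ.edgeSet → C), ∀ (c1 c0 : C) (P : Prop) (x y : V'),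
      HasType G' f' g' c1 c0 P x y → HasType G f g c1 c0 P (i x) (i y) := by
  have h1 : ∀ e : G'.edgeSet, Sym2.map i e.1 ∈ G.edgeSet := by
    rintro ⟨e, he⟩
    induction e using Sym2.ind with
    | _ x y =>
      rw [Sym2.map_mk, SimpleGraph.mem_edgeSet]
      exact i.map_adj_iff.2 ((SimpleGraph.mem_edgeSet _).1 he)
  have h0 : ∀ e : G'ᶜ.edgeSet, Sym2.map i e.1 ∈ Gᶜ.edgeSet := by
    rintro ⟨e, he⟩
    induction e using Sym2.ind with
    | _ x y =>
      rw [SimpleGraph.mem_edgeSet, SimpleGraph.compl_adj] at he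
      rw [Sym2.map_mk, SimpleGraph.mem_edgeSet, SimpleGraph.compl_adj]
      exact ⟨fun h => he.1 (i.injective h), fun h => he.2 (i.map_adj_iff.1 h)⟩
  refine ⟨fun e => f ⟨_, h1 e⟩, fun e => g ⟨_, h0 e⟩, fun c1 c0 P x y h => ⟨fun hP => ?_, fun hP => ?_⟩⟩
  · obtain ⟨h2, h3⟩ := h.1 hP
    exact ⟨h1 ⟨_, h2⟩, h3⟩
  · obtain ⟨h2, h3⟩ := h.2 hP
    exact ⟨h0 ⟨_, h2⟩, h3⟩

/-- Goodness passes from an induced subgraph to the graph. -/
theorem good_transfer (i : G' ↪g G) {f : G.edgeSet → C} {g : Gᶜ.edgeSet → C}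
    {f' : G'.edgeSet → C} {g' : G'ᶜ.edgeSet → C} {c1 c0 : C}
    (h : ∀ (P : Prop) (x y : V'), HasType G' f' g' c1 c0 P x y →
      HasType G f g c1 c0 P (i x) (i y)) (o : Ordinal.{u}) :
    ∀ F : Set V', Good G' f' g' c1 c0 o F → Good G f g c1 c0 o (i '' F) := by
  induction o using WellFoundedLT.induction with
  | _ o ih =>
    intro F hF
    rw [good_iff] at hF ⊢
    intro o' ho' s
    obtain ⟨v, hv1, hv2⟩ := hF o' ho' (i ⁻¹' s)
    refine ⟨i v, ⟨?_, ?_⟩, ?_⟩
    · rintro ⟨x, hx, hxv⟩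
      rw [i.injective hxv] at hx
      exact hv1.1 hx
    · rintro _ ⟨x, hx, rfl⟩
      exact h _ _ _ (hv1.2 x hx)
    · have h1 := ih o' ho' _ hv2
      rw [Set.image_insert_eq] at h1
      exact h1

/-- The disjoint union of graphs. -/
def DU {I : Type u} {V : I → Type u} (G : ∀ i, SimpleGraph (V i)) :
    SimpleGraph (Σ i, V i) where
  Adj x y := ∃ i a b, x = ⟨i, a⟩ ∧ y = ⟨i, b⟩ ∧ (G i).Adj a b
  symm := ⟨by
    rintro _ _ ⟨i, a, b, rfl, rfl, h⟩
    exact ⟨i, b, a, rfl, rfl, h.symm⟩⟩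
  loopless := ⟨by
    rintro _ ⟨i, a, b, rfl, h, h'⟩
    have h1 : a = b := eq_of_heq (Sigma.mk.inj h).2
    rw [h1] at h'
    exact h'.ne rfl⟩

/-- The inclusion of a component. -/
def DU.incl {I : Type u} {V : I → Type u} (G : ∀ i, SimpleGraph (V i)) (i : I) : G i ↪g DU G where
  toFun a := ⟨i, a⟩
  inj' a b h := eq_of_heq (Sigma.mk.inj h).2
  map_rel_iff' := by
    intro a b
    constructor
    · rintro ⟨j, a', b', h1, h2, h3⟩
      have h4 := (Sigma.mk.inj h1).1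
      subst h4
      have h5 := eq_of_heq (Sigma.mk.inj h1).2
      have h6 := eq_of_heq (Sigma.mk.inj h2).2
      subst h5
      subst h6
      exact h3
    · intro h
      exact ⟨i, a, b, rfl, rfl, h⟩

end Pool.Agent.RKC
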