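import Pool.Agent.RKC.Both
import Pool.Agent.RKC.Union
import Pool.Agent.RKC.Limit

/-! A graph on `κ` vertices for the clock `κ` and for all graphs with one persistent type and fewer
than `κ` vertices. -/

set_option autoImplicit false

namespace Pool.Agent.RKC

universe u

open Cardinal Order

theorem isOneType_bot (W : Type u) : IsOneType (⊥ : SimpleGraph W) := by
  obtain ⟨i1, i2⟩ := exists_wellFoundedLT W
  refine ⟨W, i1, i2, id, fun n => ?_, fun x y z _ _ => by simp⟩
  have : {v : W | id v = n} = {n} := by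
    ext v
    simp
  rw [this]
  exact Set.finite_singleton n

/-- `both` with a lower bound for the number of vertices. -/
theorem both_card (C : Type u) [Nonempty C] (ν : Cardinal.{u}) :
    ∃ (V : Type u) (G : SimpleGraph V), ν ≤ #V ∧ ∀ (f : G.edgeSet → C) (g : Gᶜ.edgeSet → C),
      ∃ c1 c0 : C, Good G f g c1 c0 ν.ord ∅ ∧
        ∀ (W : Type u) (H : SimpleGraph W), #W ≤ ν →
        IsOneType H → ∃ p : H ↪g G,
          ∀ x y : W, x ≠ y → HasType G f g c1 c0 (H.Adj x y) (p x) (p y) := by
  obtain ⟨V, G, h⟩ := both C ν.out ν.ord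
  refine ⟨V, G, ?_, fun f g => ?_⟩
  · obtain ⟨c1, c0, -, h2⟩ := h (fun _ => Classical.arbitrary C) (fun _ => Classical.arbitrary C)
    obtain ⟨p, -⟩ := h2 ν.out ⊥ ⟨Function.Embedding.refl _⟩ (isOneType_bot _)
    have h3 := mk_le_of_injective p.injective
    rwa [mk_out] at h3
  · obtain ⟨c1, c0, h1, h2⟩ := h f g
    refine ⟨c1, c0, h1, fun W H hW hH => h2 W H ?_ hH⟩
    rw [← mk_out ν] at hW
    exact hW

/-- The main theorem. -/
theorem size (C : Type u) (lam : Cardinal.{u}) :
    ∃ (V : Type u) (G : SimpleGraph V), lam ≤ #V ∧ ℵ₀ ≤ #V ∧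
      ∀ (f : G.edgeSet → C) (g : Gᶜ.edgeSet → C),
        ∃ c1 c0 : C, Good G f g c1 c0 (#V).ord ∅ ∧
          ∀ (W : Type u) (H : SimpleGraph W), #W < #V → IsOneType H →
            ∃ p : H ↪g G, ∀ x y : W, x ≠ y → HasType G f g c1 c0 (H.Adj x y) (p x) (p y) := by
  classical
  rcases isEmpty_or_nonempty C with hC | hC
  · refine ⟨(max lam ℵ₀).out, ⊤, ?_, ?_, fun f => ?_⟩
    · rw [mk_out]
      exact le_max_left _ _
    · rw [mk_out]
      exact le_max_right _ _
    · exfalso
      have h1 : Infinite (max lam ℵ₀).out := by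
        rw [infinite_iff, mk_out]
        exact le_max_right _ _
      obtain ⟨x, y, hxy⟩ := exists_pair_ne (max lam ℵ₀).out
      exact hC.false (f ⟨s(x, y), by simpa using hxy⟩)
  -- the number of colour pairs
  let k : Cardinal.{u} := max #(C × C) ℵ₀
  have hk : ℵ₀ ≤ k := le_max_right _ _
  let I : Type u := (succ k).ord.ToType
  have hI : #I = succ k := by simp [I]
  have hbdd : ∀ S : Set I, #S ≤ k → ∃ z, ∀ s ∈ S, s < z := RK.bdd_of_small hk
  have hne : Nonempty I := by
    rw [← mk_ne_zero_iff, hI]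
    exact succ_ne_zero _
  -- the graphs for all cardinals
  choose V G hV hG using fun ν : Cardinal.{u} => both_card C ν
  -- the cardinals `κ i`
  obtain ⟨κ, hκ⟩ := RK.exists_rec (R := I) (β := fun _ => Cardinal.{u})
    (fun i prev v => max lam (succ k) ≤ v ∧ ∀ j (h : j < i), prev j h < v ∧ #(V (prev j h)) ≤ v)
    (by
      intro i prev
      let S : Cardinal.{u} := Cardinal.sum fun j : {j // j < i} =>
        max (prev j.1 j.2) #(V (prev j.1 j.2))
      refine ⟨max (max lam (succ k)) (succ S), le_max_left _ _, fun j h => ?_⟩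
      have h1 : max (prev j h) #(V (prev j h)) ≤ S :=
        Cardinal.le_sum (fun j : {j // j < i} => max (prev j.1 j.2) #(V (prev j.1 j.2))) ⟨j, h⟩
      exact ⟨((le_max_left _ _).trans h1).trans_lt ((lt_succ S).trans_le (le_max_right _ _)),
        ((le_max_right _ _).trans h1).trans ((lt_succ S).le.trans (le_max_right _ _))⟩)
  let W : Type u := Σ i, V (κ i)
  have hW : #W = Cardinal.sum fun i => #(V (κ i)) := mk_sigma _
  have hκW : ∀ i, κ i ≤ #W := fun i => by
    rw [hW]
    exact (hV (κ i)).trans (Cardinal.le_sum (fun i => #(V (κ i))) i)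
  -- `#W` is the supremum of the cardinals `κ i`
  have hA : ∀ η < #W, ∃ i, η < κ i := by
    intro η hη
    by_contra hcon
    push Not at hcon
    have h1 : ∀ i, #(V (κ i)) ≤ η := by
      intro i
      obtain ⟨j, hj⟩ := hbdd {i} (by
        rw [mk_singleton]
        exact one_le_aleph0.trans hk)
      exact ((hκ j).2 i (hj i rfl)).2.trans (hcon j)
    have h2 : succ k ≤ η := by
      obtain ⟨i⟩ := hne
      exact ((le_max_right _ _).trans (hκ i).1).trans (hcon i)
    have h3 : #W ≤ η := by
      rw [hW]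
      refine (sum_le_sum _ (fun _ => η) h1).trans ?_
      rw [sum_const', hI]
      exact mul_le_of_le (hk.trans ((le_succ k).trans h2)) h2 le_rfl
    exact absurd hη (not_lt.2 h3)
  have hmono : ∀ i j, i < j → κ i < κ j := fun i j hij => ((hκ j).2 i hij).1
  refine ⟨W, DU fun i => G (κ i), ?_, ?_, fun f g => ?_⟩
  · obtain ⟨i⟩ := hne
    exact ((le_max_left _ _).trans (hκ i).1).trans (hκW i)
  · obtain ⟨i⟩ := hne
    exact (hk.trans (le_succ k)).trans (((le_max_right _ _).trans (hκ i).1).trans (hκW i))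
  · choose f' g' hfg using fun i => exists_restrict (DU.incl (fun i => G (κ i)) i) f g
    choose c1 c0 hgood hemb using fun i => hG (κ i) (f' i) (g' i)
    -- one pair of colours for unboundedly many `i`
    obtain ⟨cc, hcc⟩ : ∃ cc : C × C, ∀ b : I, ∃ i, b ≤ i ∧ (c1 i, c0 i) = cc := by
      by_contra hcon
      push Not at hcon
      choose b hb using hcon
      obtain ⟨z, hz⟩ := hbdd (Set.range b) (mk_range_le.trans (le_max_left _ _))
      exact hb (c1 z, c0 z) z (hz _ ⟨_, rfl⟩).le rfl
    refine ⟨cc.1, cc.2, ?_, fun X H hX hH => ?_⟩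
    · rw [good_iff]
      intro o ho s
      rw [lt_ord] at ho
      obtain ⟨i0, hi0⟩ := hA _ ho
      obtain ⟨i, hi, hci⟩ := hcc i0
      have hle : κ i0 ≤ κ i := by
        rcases lt_or_eq_of_le hi with h | h
        · exact (hmono _ _ h).le
        · rw [h]
      have h1 := good_transfer (DU.incl (fun i => G (κ i)) i) (fun P x y h => hfg i _ _ P x y h)
        _ _ (hgood i)
      rw [Set.image_empty, good_iff] at h1
      rw [← hci]
      exact h1 o (lt_ord.2 (hi0.trans_le hle)) s
    · obtain ⟨i0, hi0⟩ := hA _ hX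
      obtain ⟨i, hi, hci⟩ := hcc i0
      have hle : κ i0 ≤ κ i := by
        rcases lt_or_eq_of_le hi with h | h
        · exact (hmono _ _ h).le
        · rw [h]
      obtain ⟨p, hp⟩ := hemb i X H (hi0.le.trans hle) hH
      refine ⟨p.trans (DU.incl (fun i => G (κ i)) i), fun x y hxy => ?_⟩
      rw [← hci]
      exact hfg i _ _ _ _ _ (hp x y hxy)

end Pool.Agent.RKC
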